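import Mathlib
import Pool.Agent.KS6_49.L8.Y670.HI.Fin

set_option autoImplicit false
set_option maxHeartbeats 400000

/-! Hyperarithmetic functions, the `s-m-n` theorem and the recursion theorem for the universal
`Σ¹₁` predicate. -/

namespace Pool.Agent.KS6_49.HY

open Encodable Denumerable Nat.Partrec Pool.Agent.Helper941 Pool.Agent.Helper941.IsoProb
open Pool.Agent.Helper941.Zeta Pool.Agent.Helper941.Dim Pool.Agent.Helper941.Hyp
open Pool.Agent.Y670.HI

variable {α β γ : Type} [Primcodable α] [Primcodable β] [Primcodable γ]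

/-! ### hyperarithmetic functions -/

/-- hyperarithmetic functions: the graph is `Δ¹₁` -/
def HF (f : α → β) : Prop := Delta11 fun p : α × β => f p.1 = p.2

theorem HF.of_computable {f : α → β} (h : Computable f) : HF f :=
  Delta11.of_computable (eq_comp (h.comp Computable.fst) Computable.snd)

theorem HF.sub {f : α → β} (hf : HF f) {P : α × β → Prop} (hP : Delta11 P) :
    Delta11 fun a => P (a, f a) := by
  have h1 : Delta11 fun p : α × β => f p.1 = p.2 ∧ P p := hf.and hP
  refine h1.ex'.of_iff fun x => ?_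
  constructor
  · intro h
    exact ⟨f x, rfl, h⟩
  · rintro ⟨y, h2, h3⟩
    have h2' : f x = y := h2
    rw [h2']; exact h3

theorem HF.pred {f : α → β} (hf : HF f) {P : β → Prop} (hP : Delta11 P) :
    Delta11 fun a => P (f a) :=
  hf.sub (P := fun p : α × β => P p.2) (hP.comp Computable.snd)

theorem HF.comp {f : α → β} {g : β → γ} (hg : HF g) (hf : HF f) : HF fun a => g (f a) := by
  have h1 : HF fun p : α × γ => f p.1 := by
    unfold HF
    exact Delta11.comp hf (f := fun q : (α × γ) × β => (q.1.1, q.2))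
      (c_pair (c_fst (c_fst c_id)) (c_snd c_id))
  exact h1.sub (P := fun q : (α × γ) × β => g q.2 = q.1.2)
    (Delta11.comp hg (f := fun q : (α × γ) × β => (q.2, q.1.2))
      (c_pair (c_snd c_id) (c_snd (c_fst c_id))))

theorem HF.pair {f : α → β} {g : α → γ} (hf : HF f) (hg : HF g) : HF fun a => (f a, g a) := by
  have h1 : Delta11 fun p : α × β × γ => f p.1 = p.2.1 :=
    Delta11.comp hf (f := fun p : α × β × γ => (p.1, p.2.1))
      (c_pair (c_fst c_id) (c_fst (c_snd c_id)))
  have h2 : Delta11 fun p : α × β × γ => g p.1 = p.2.2 :=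
    Delta11.comp hg (f := fun p : α × β × γ => (p.1, p.2.2))
      (c_pair (c_fst c_id) (c_snd (c_snd c_id)))
  refine (h1.and h2).of_iff fun p => ?_
  show (f p.1, g p.1) = p.2 ↔ _
  rw [Prod.ext_iff]

/-- substitution of several hyperarithmetic functions -/
theorem HF.pred2 {f : α → β} {g : α → γ} (hf : HF f) (hg : HF g) {P : β × γ → Prop}
    (hP : Delta11 P) : Delta11 fun a => P (f a, g a) := (hf.pair hg).pred hP

theorem HF.least {D : α × ℕ → Prop} (hD : Delta11 D) : HF fun a => sInf {n | D (a, n)} := by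
  have h1 : Delta11 fun p : α × ℕ => ∀ m, m < p.2 → ¬ D (p.1, m) :=
    Delta11.all (P := fun q : (α × ℕ) × ℕ => q.2 < q.1.2 → ¬ D (q.1.1, q.2))
      ((Delta11.of_computable (p_lt (c_snd c_id) (c_snd (c_fst c_id)))).imp
        (hD.comp (f := fun q : (α × ℕ) × ℕ => (q.1.1, q.2))
          (c_pair (c_fst (c_fst c_id)) (c_snd c_id))).not)
  have h2 : Delta11 fun p : α × ℕ => ∀ m, ¬ D (p.1, m) :=
    Delta11.all (P := fun q : (α × ℕ) × ℕ => ¬ D (q.1.1, q.2))
      (hD.comp (f := fun q : (α × ℕ) × ℕ => (q.1.1, q.2))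
          (c_pair (c_fst (c_fst c_id)) (c_snd c_id))).not
  have h3 : Delta11 fun p : α × ℕ => p.2 = 0 :=
    Delta11.of_computable (p_eq (c_snd c_id) (c_const 0))
  refine ((hD.and h1).or (h3.and h2)).of_iff fun p => ?_
  obtain ⟨a, n⟩ := p
  show sInf {n | D (a, n)} = n ↔ (D (a, n) ∧ ∀ m, m < n → ¬ D (a, m)) ∨ (n = 0 ∧ ∀ m, ¬ D (a, m))
  constructor
  · intro h
    by_cases hne : ∃ m, D (a, m)
    · left
      have h4 : D (a, sInf {n | D (a, n)}) := Nat.sInf_mem (s := {n | D (a, n)}) hne
      rw [h] at h4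
      refine ⟨h4, fun m hm hDm => ?_⟩
      have : sInf {n | D (a, n)} ≤ m := Nat.sInf_le (s := {n | D (a, n)}) hDm
      omega
    · right
      push Not at hne
      refine ⟨?_, hne⟩
      rw [← h]
      have : {n | D (a, n)} = ∅ := by
        ext m
        simp [hne m]
      rw [this, Nat.sInf_empty]
  · rintro (⟨h4, h5⟩ | ⟨rfl, h5⟩)
    · have h6 : sInf {n | D (a, n)} ≤ n := Nat.sInf_le (s := {n | D (a, n)}) h4
      have h7 : D (a, sInf {n | D (a, n)}) := Nat.sInf_mem (s := {n | D (a, n)}) ⟨n, h4⟩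
      by_contra hc
      exact h5 _ (lt_of_le_of_ne h6 hc) h7
    · have : {n | D (a, n)} = ∅ := by
        ext m
        simp [h5 m]
      rw [this, Nat.sInf_empty]

/-! ### the universal predicate -/

theorem uu1_iff {e x : ℕ} : UU1 e x ↔ ∃ f : ℕ → ℕ, ∀ m,
    ¬ (Code.eval (ofNat Code e) (Nat.pair x (encode ((List.range m).map f)))).Dom := by
  unfold UU1
  refine exists_congr fun f => ?_
  constructor
  · intro h m hm
    obtain ⟨s, hs⟩ := (haltsIn_iff _ _).1 hm
    exact ut_range.1 (h (m + s)) m (by omega) (haltsIn_mono _ _ (by omega) hs)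
  · intro h n
    rw [ut_range]
    intro m _ hh
    exact h m ((haltsIn_iff _ _).2 ⟨n, hh⟩)

/-- the `s-m-n` theorem -/
theorem smn {P : ℕ × ℕ → Prop} (h : Sigma11 P) :
    ∃ s : ℕ → ℕ, Computable s ∧ Function.Injective s ∧ ∀ y x, UU1 (s y) x ↔ P (y, x) := by
  obtain ⟨R, hR, h1⟩ := h
  obtain ⟨c, hc⟩ := sigma1_code (ComputablePred.sigma (p_not hR) : Sigma0 1 fun a => ¬ R a)
  have hF : Partrec fun z : ℕ => Code.eval c (Nat.pair (Nat.pair z.unpair.1 z.unpair.2.unpair.1)
      z.unpair.2.unpair.2) := by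
    refine Code.eval_part.comp (Computable.const c) ?_
    exact c_npair (c_npair (c_up1 c_id) (c_up1 (c_up2 c_id))) (c_up2 (c_up2 c_id))
  obtain ⟨c', hc'⟩ := Code.exists_code.1 (Partrec.nat_iff.1 hF)
  refine ⟨fun y => encode (Code.curry c' y), ?_, ?_, fun y x => ?_⟩
  · exact Computable.encode.comp ((Code.primrec₂_curry.to_comp).comp (Computable.const c')
      Computable.id)
  · intro y y' hy
    exact (Code.curry_inj (encode_injective hy)).2
  · rw [uu1_iff, h1]
    refine exists_congr fun f => forall_congr' fun m => ?_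
    rw [ofNat_encode, Code.eval_curry, hc']
    simp only [Nat.unpair_pair]
    have h2 := hc ((y, x), (List.range m).map f)
    have h3 : encode ((y, x), (List.range m).map f) = Nat.pair (Nat.pair y x)
      (encode ((List.range m).map f)) := rfl
    rw [h3] at h2
    rw [← h2, not_not]

/-- the recursion theorem -/
theorem recur {Q : ℕ × ℕ → Prop} (h : Sigma11 Q) : ∃ e, ∀ x, UU1 e x ↔ Q (e, x) := by
  obtain ⟨R, hR, h1⟩ := h
  obtain ⟨c, hc⟩ := sigma1_code (ComputablePred.sigma (p_not hR) : Sigma0 1 fun a => ¬ R a)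
  have hF : Partrec₂ fun (b : Code) (z : ℕ) =>
      Code.eval c (Nat.pair (Nat.pair (encode b) z.unpair.1) z.unpair.2) := by
    refine Code.eval_part.comp (Computable.const c) ?_
    exact c_npair (c_npair (Computable.encode.comp Computable.fst) (c_up1 (c_snd c_id)))
      (c_up2 (c_snd c_id))
  obtain ⟨b, hb⟩ := Code.fixed_point₂ hF
  refine ⟨encode b, fun x => ?_⟩
  rw [uu1_iff, h1]
  refine exists_congr fun f => forall_congr' fun m => ?_
  rw [ofNat_encode, hb]
  simp only [Nat.unpair_pair]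
  have h2 := hc ((encode b, x), (List.range m).map f)
  have h3 : encode ((encode b, x), (List.range m).map f) = Nat.pair (Nat.pair (encode b) x)
    (encode ((List.range m).map f)) := rfl
  rw [h3] at h2
  rw [← h2, not_not]

theorem sigma_uu1 : Sigma11 fun p : ℕ × ℕ => UU1 p.1 p.2 := by
  have hR : ComputablePred fun q : (ℕ × ℕ) × List ℕ => UT q.1.1 q.1.2 q.2 := by
    unfold UT
    refine p_ball (c_succ (Computable.list_length.comp (c_snd c_id))) (p_not (p_of_bool ?_))
    refine c_halts (c_fst (c_fst (c_fst c_id))) ?_ (Computable.list_length.comp (c_snd (c_fst c_id)))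
    exact c_npair (c_snd (c_fst (c_fst c_id))) (Computable.encode.comp
      (c_tk (c_snd (c_fst c_id)) (c_snd c_id)))
  exact ⟨_, hR, fun a => Iff.rfl⟩

end Pool.Agent.KS6_49.HY
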