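import Mathlib
import Pool.Agent.KS6_49.HY.Calc

set_option autoImplicit false
set_option maxHeartbeats 400000

/-! The true nodes with the labels of the one-term sequences. -/

namespace Pool.Agent.KS6_49.HY

open Encodable Denumerable Nat.Partrec Pool.Agent.Helper941 Pool.Agent.Helper941.IsoProb
open Pool.Agent.Helper941.Zeta Pool.Agent.Helper941.Dim Pool.Agent.Helper941.Hyp
open Pool.Agent.Y670.HI

/-- `u` is the true node with label `j` -/
def Tn (u j : ℕ) : Prop := ∀ N, ∃ s, N ≤ s ∧ on dH u s j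

theorem tn_of_pers {g : ℕ → ℕ} (hg : TP dH g) {u j : ℕ} (h : Pers dH g u j) : Tn u j := by
  intro N
  obtain ⟨s, hs, hv⟩ := hg.inf j N
  exact ⟨s, hs, h.on hv⟩

theorem pers_of_tn {g : ℕ → ℕ} (hg : TP dH g) {u j : ℕ} (h : Tn u j) : Pers dH g u j := by
  have hJ : dH.J u = j + 1 := by
    obtain ⟨s, _, hs⟩ := h 0
    exact hs.1
  have hl : ∀ s, u < s → ¬ lft dH s u j := by
    intro s hs hl
    obtain ⟨s', hs', h1⟩ := h s
    refine h1.2.2 s (by omega) hs ?_
    rw [hJ]
    exact hl
  have hv : ∀ i, i ≤ j → vis dH g u i := by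
    intro i
    induction i with
    | zero => intro _ k hk; omega
    | succ i ih =>
      intro hi
      have h1 := ih (by omega)
      obtain ⟨N, hN⟩ := hg.left i
      obtain ⟨s, hs, hon⟩ := h N
      have h2 : vis dH g s i := fun k hk => by
        rw [← hon.2.1 k (by omega)]
        exact h1 k hk
      have h3 : g i ≤ dH.O u i := by
        rw [hon.2.1 i (by omega)]
        exact hN s hs h2
      intro k hk
      by_cases hki : k = i
      · subst hki
        by_contra hne
        obtain ⟨s', hs', hv'⟩ := hg.inf (k + 1) (u + 1)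
        refine hl s' (by omega) ⟨k, by omega, fun m hm => ?_, ?_⟩
        · rw [hv' m (by omega), h1 m hm]
        · rw [hv' k (by omega)]
          omega
      · exact h1 k (by omega)
  exact ⟨hJ, hv j le_rfl, hl⟩

theorem exists_tpH : ∃ g, TP dH g := exists_tp (d := dH) spec_H.O_le

theorem tn_uniq {u u' j : ℕ} (h : Tn u j) (h' : Tn u' j) : u = u' := by
  obtain ⟨g, hg⟩ := exists_tpH
  exact (pers_of_tn hg h).uniq spec_H th_HT hg (pers_of_tn hg h')

/-- a path gives a flow through the true nodes -/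
theorem flow_of_path' {g : ℕ → ℕ} (hg : TP dH g) {l : ℕ → ℕ} (h : IsPath HT prn l) :
    ∃ t w : ℕ → ℕ, Flow pH t ∧ (∀ k, 1 ≤ w (k + 1) ∧ pH (w (k + 1)) = w k) ∧
      (∀ k, Pers dH g (w k) (l k)) ∧ ∀ k, t (w k) = 2 ^ w (k + 1) := by
  classical
  have hS : Spec HT prn dH := spec_H
  have hT : TH HT prn := th_HT
  choose w hw using fun k => pers_exists hS hg (l k) (h.memk hT k)
  have hpa : ∀ k, 1 ≤ w (k + 1) ∧ dH.pa (w (k + 1)) = w k := by
    intro k
    obtain ⟨h1, h2⟩ := (hw (k + 1)).pa hS hT (h.pos k)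
    rw [h.prv] at h2
    exact ⟨h1, h2.uniq hS hT hg (hw k)⟩
  have hmono : StrictMono w := by
    refine strictMono_nat_of_lt_succ fun k => ?_
    obtain ⟨h1, h2⟩ := hpa k
    have := hS.pa_lt hT h1
    omega
  let t : ℕ → ℕ := fun v => if hv : ∃ k, w k = v then 2 ^ w (hv.choose + 1) else 0
  have ht1 : ∀ k, t (w k) = 2 ^ w (k + 1) := by
    intro k
    have hv : ∃ k', w k' = w k := ⟨k, rfl⟩
    show (if hv : ∃ k', w k' = w k then 2 ^ w (hv.choose + 1) else 0) = _
    rw [dif_pos hv]
    have := hmono.injective hv.choose_spec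
    rw [this]
  have ht2 : ∀ v, (¬ ∃ k, w k = v) → t v = 0 := fun v hv => dif_neg hv
  refine ⟨t, w, ⟨?_, ?_⟩, hpa, hw, ht1⟩
  · intro v u hu
    by_cases hv : ∃ k, w k = v
    · obtain ⟨k, rfl⟩ := hv
      rw [ht1, Nat.testBit_two_pow] at hu
      have hu' : w (k + 1) = u := by simpa using hu
      rw [← hu']
      exact hpa k
    · rw [ht2 v hv] at hu
      simp at hu
  · intro u hu
    by_cases hv : ∃ k, w k = u
    · obtain ⟨k, rfl⟩ := hv
      cases k with
      | zero =>
        have h0 : w 0 = 0 := by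
          have := hw 0
          rw [h.zero] at this
          exact this.uniq hS hT hg (pers_zero hS)
        omega
      | succ k =>
        show (t (dH.pa (w (k + 1)))).testBit (w (k + 1)) = _
        rw [(hpa k).2, ht1, ht1, par_two_pow, Nat.testBit_two_pow]
        simp
    · rw [ht2 u hv]
      by_contra hc
      have h1 : (t (dH.pa u)).testBit u = true := by
        by_contra hc'
        simp only [Bool.not_eq_true] at hc'
        exact hc (by show (t (dH.pa u)).testBit u = _; rw [hc']; rfl)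
      by_cases hv' : ∃ k, w k = dH.pa u
      · obtain ⟨k, hk⟩ := hv'
        rw [← hk, ht1, Nat.testBit_two_pow] at h1
        exact hv ⟨k + 1, by simpa using h1⟩
      · rw [ht2 _ hv'] at h1
        simp at h1

theorem HT_lab (e : ℕ) : HT (lab e) := by
  have h := HT_nod (fun _ => e) 0
  rw [zero_add, lab_eq] at h
  rw [h]
  intro m _
  simp [haltsIn, Code.evaln]

theorem len_lab (e : ℕ) : len (lab e) = 1 := by
  have h := len_nod (fun _ => e) 1
  rwa [lab_eq] at h

theorem lab_pos (e : ℕ) : 1 ≤ lab e := by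
  by_contra hc
  have h : lab e = 0 := by omega
  have h1 := len_lab e
  rw [h, len_zero] at h1
  omega

theorem prn_lab (e : ℕ) : prn (lab e) = 0 := by
  have h := prn_nod (fun _ => e) 0
  rw [zero_add, lab_eq] at h
  rw [h]
  rfl

theorem lab_inj : Function.Injective lab := by
  intro e e' h
  unfold lab at h
  have := encode_injective h
  simpa using this

theorem exists_an (e : ℕ) : ∃ u, Tn u (lab e) := by
  obtain ⟨g, hg⟩ := exists_tpH
  obtain ⟨u, hu⟩ := pers_exists spec_H hg (lab e) (HT_lab e)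
  exact ⟨u, tn_of_pers hg hu⟩

/-- the true node with the label of the sequence `(e)` -/
noncomputable def an (e : ℕ) : ℕ := (exists_an e).choose

theorem an_spec (e : ℕ) : Tn (an e) (lab e) := (exists_an e).choose_spec

theorem an_J (e : ℕ) : dH.J (an e) = lab e + 1 := by
  obtain ⟨s, _, hs⟩ := an_spec e 0
  exact hs.1

theorem an_inj : Function.Injective an := by
  intro e e' h
  have h1 := an_J e
  rw [h, an_J] at h1
  exact lab_inj (by omega)

theorem an_top (e : ℕ) : 1 ≤ an e ∧ pH (an e) = 0 := by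
  obtain ⟨g, hg⟩ := exists_tpH
  have h := pers_of_tn hg (an_spec e)
  obtain ⟨h1, h2⟩ := h.pa spec_H th_HT (lab_pos e)
  rw [prn_lab] at h2
  exact ⟨h1, h2.uniq spec_H th_HT hg (pers_zero spec_H)⟩

theorem xb_an (e : ℕ) : XB (an e) ↔ UU1 e e := by
  rw [← path_iff]
  constructor
  · rintro ⟨hu, hp, t, hF, ht⟩
    obtain ⟨l, hl, h1⟩ := path_of_flow spec_H th_HT hF (u := an e) (by
      have := hF.par (an e) hu
      rw [hp] at this
      rw [this, ht])
    rw [an_J] at h1
    exact ⟨l, hl, by omega⟩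
  · rintro ⟨l, hl, h1⟩
    obtain ⟨g, hg⟩ := exists_tpH
    obtain ⟨t, w, hF, h2, h3, h4⟩ := flow_of_path' hg hl
    have h5 : w 1 = an e := by
      have h6 := h3 1
      rw [h1] at h6
      exact h6.uniq spec_H th_HT hg (pers_of_tn hg (an_spec e))
    refine ⟨(an_top e).1, (an_top e).2, t, hF, ?_⟩
    rw [← h5, h4, par_two_pow]

/-! ### complexity -/

theorem delta_on : Delta11 fun q : ℕ × ℕ × ℕ => on dH q.1 q.2.1 q.2.2 := by
  have hO : ∀ {α : Type} [Primcodable α] {s e : α → ℕ}, Computable s → Computable e →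
      Computable fun a => dH.O (s a) (e a) := fun hs he => con_O p_HT c_prn hs he
  have hJ : ∀ {α : Type} [Primcodable α] {s : α → ℕ}, Computable s →
      Computable fun a => dH.J (s a) := fun hs => con_J p_HT c_prn hs
  have hagr : ∀ {α : Type} [Primcodable α] {s s' e : α → ℕ}, Computable s → Computable s' →
      Computable e → ComputablePred fun a => agr dH (s a) (s' a) (e a) := by
    intro α _ s s' e hs hs' he
    unfold agr
    exact p_ball he (p_eq (hO (hs.comp Computable.fst) Computable.snd)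
      (hO (hs'.comp Computable.fst) Computable.snd))
  have hlft : ∀ {α : Type} [Primcodable α] {s s' e : α → ℕ}, Computable s → Computable s' →
      Computable e → ComputablePred fun a => lft dH (s a) (s' a) (e a) := by
    intro α _ s s' e hs hs' he
    unfold lft
    exact p_bex he (p_and (hagr (hs.comp Computable.fst) (hs'.comp Computable.fst)
      Computable.snd) (p_lt (hO (hs.comp Computable.fst) Computable.snd)
      (hO (hs'.comp Computable.fst) Computable.snd)))
  have hlive : ComputablePred fun q : ℕ × ℕ × ℕ => live dH q.1 q.2.1 := by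
    unfold live
    exact p_ball (c_succ (c_fst (c_snd c_id))) (p_imp (p_lt (c_fst (c_fst c_id)) (c_snd c_id))
      (p_not (hlft (c_snd c_id) (c_fst (c_fst c_id)) (c_sub (hJ (c_fst (c_fst c_id)))
        (c_const 1)))))
  refine Delta11.of_computable ?_
  unfold on
  exact p_and (p_eq (hJ (c_fst c_id)) (c_succ (c_snd (c_snd c_id))))
    (p_and (hagr (c_fst c_id) (c_fst (c_snd c_id)) (c_snd (c_snd c_id))) hlive)

theorem c_lab {α : Type} [Primcodable α] {f : α → ℕ} (hf : Computable f) :
    Computable fun a => lab (f a) :=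
  Computable.encode.comp (Computable.list_cons.comp hf (c_const []))

theorem hf_an : HF an := by
  have h1 : Delta11 fun q : ((ℕ × ℕ) × ℕ) × ℕ => q.1.2 ≤ q.2 ∧ on dH q.1.1.2 q.2 (lab q.1.1.1) := by
    refine (Delta11.of_computable (p_le (c_snd (c_fst c_id)) (c_snd c_id))).and ?_
    exact delta_on.comp (f := fun q : ((ℕ × ℕ) × ℕ) × ℕ => (q.1.1.2, q.2, lab q.1.1.1))
      (c_pair (c_snd (c_fst (c_fst c_id))) (c_pair (c_snd c_id)
        (c_lab (c_fst (c_fst (c_fst c_id))))))
  have h2 : Delta11 fun p : ℕ × ℕ => Tn p.2 (lab p.1) :=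
    Delta11.all (P := fun r : (ℕ × ℕ) × ℕ => ∃ s, r.2 ≤ s ∧ on dH r.1.2 s (lab r.1.1))
      (Delta11.ex (P := fun q : ((ℕ × ℕ) × ℕ) × ℕ => q.1.2 ≤ q.2 ∧
        on dH q.1.1.2 q.2 (lab q.1.1.1)) h1)
  refine h2.of_iff fun p => ?_
  constructor
  · intro h
    have h' : an p.1 = p.2 := h
    rw [← h']
    exact an_spec p.1
  · intro h
    exact tn_uniq (an_spec p.1) h

/-- every `Σ¹₁` predicate is given by the true nodes of a hyperarithmetic injective sequence of
labels -/
theorem exists_nodes {R : ℕ → Prop} (hR : Sigma11 R) : ∃ τ : ℕ → ℕ, HF τ ∧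
    Function.Injective τ ∧ (∀ z, 1 ≤ τ z ∧ pH (τ z) = 0) ∧ ∀ z, XB (τ z) ↔ R z := by
  obtain ⟨s, hs, hi, h⟩ := smn (P := fun p => R p.1) (hR.comp Computable.fst)
  refine ⟨fun z => an (s z), hf_an.comp (HF.of_computable hs), an_inj.comp hi,
    fun z => an_top _, fun z => ?_⟩
  rw [xb_an, h]

end Pool.Agent.KS6_49.HY
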