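import Mathlib
import Pool.Agent.KS6_49.HY.Node

set_option autoImplicit false
set_option maxHeartbeats 400000

/-! The blocks of structures and the classes. -/

namespace Pool.Agent.KS6_49.HY

open Encodable Denumerable Nat.Partrec Pool.Agent.Helper941 Pool.Agent.Helper941.IsoProb
open Pool.Agent.Helper941.Zeta Pool.Agent.Helper941.Dim Pool.Agent.Helper941.Hyp
open Pool.Agent.Y670.HI

variable {α β γ : Type} [Primcodable α] [Primcodable β] [Primcodable γ]

/-! ### the activity patterns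

The pattern `0` makes all `n + 3` edges of the cycle active, the pattern `i + 1` with `i < n + 3`
the two edges at the vertex `i`, and all other patterns make no edge active. -/

def Ac (n J j : ℕ) : Prop := J = 0 ∨ (J ≤ n + 3 ∧ (j + 1 = J ∨ j = J % (n + 3)))

/-- `x` and `y` differ only at active edges -/
def Eqv (n J x y : ℕ) : Prop := ∀ j < n + 3, x.testBit j ≠ y.testBit j → Ac n J j

theorem p_Ac {n J j : α → ℕ} (hn : Computable n) (hJ : Computable J) (hj : Computable j) :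
    ComputablePred fun a => Ac (n a) (J a) (j a) := by
  unfold Ac
  have hm : Computable fun a => J a % (n a + 3) :=
    (Primrec.nat_mod.to_comp).comp hJ (c_add hn (c_const 3))
  exact p_or (p_eq hJ (c_const 0)) (p_and (p_le hJ (c_add hn (c_const 3)))
    (p_or (p_eq (c_succ hj) hJ) (p_eq hj hm)))

theorem c_testBit {f g : α → ℕ} (hf : Computable f) (hg : Computable g) :
    Computable fun a => (f a).testBit (g a) := by
  have h1 : ComputablePred fun a => f a / 2 ^ g a % 2 = 1 := by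
    refine p_eq (c_mod2 ?_) (c_const 1)
    exact (Primrec.nat_div.to_comp).comp hf (c_pow hg)
  classical
  refine (c_decide h1).of_eq fun a => ?_
  rw [Nat.testBit_eq_decide_div_mod_eq]
  exact decide_eq_decide.2 Iff.rfl

theorem p_Eqv {n J x y : α → ℕ} (hn : Computable n) (hJ : Computable J) (hx : Computable x)
    (hy : Computable y) : ComputablePred fun a => Eqv (n a) (J a) (x a) (y a) := by
  unfold Eqv
  refine p_ball (c_add hn (c_const 3)) (p_imp (p_not (p_eqb (c_testBit (hx.comp Computable.fst)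
    Computable.snd) (c_testBit (hy.comp Computable.fst) Computable.snd))) ?_)
  exact p_Ac (hn.comp Computable.fst) (hJ.comp Computable.fst) Computable.snd

/-- the edge `j` of the cycle of length `n + 3` is active for `e` -/
def RR (n e j : ℕ) : Prop := ∃ i i', UU1 e i ∧ UU1 e i' ∧
  (i ≠ i' ∨ (i < n + 3 ∧ (j = i ∨ j = (i + 1) % (n + 3))))

theorem sigma_RR : Sigma11 fun z : ℕ => RR z.unpair.1 z.unpair.2.unpair.1 z.unpair.2.unpair.2 := by
  have hn : Computable fun q : (ℕ × ℕ) × ℕ => q.1.1.unpair.1 := c_up1 (c_fst (c_fst c_id))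
  have he : Computable fun q : (ℕ × ℕ) × ℕ => q.1.1.unpair.2.unpair.1 :=
    c_up1 (c_up2 (c_fst (c_fst c_id)))
  have hj : Computable fun q : (ℕ × ℕ) × ℕ => q.1.1.unpair.2.unpair.2 :=
    c_up2 (c_up2 (c_fst (c_fst c_id)))
  have hi : Computable fun q : (ℕ × ℕ) × ℕ => q.1.2 := c_snd (c_fst c_id)
  have hi' : Computable fun q : (ℕ × ℕ) × ℕ => q.2 := c_snd c_id
  have h1 : Sigma11 fun q : (ℕ × ℕ) × ℕ => UU1 q.1.1.unpair.2.unpair.1 q.1.2 :=
    sigma_uu1.comp (c_pair he hi)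
  have h2 : Sigma11 fun q : (ℕ × ℕ) × ℕ => UU1 q.1.1.unpair.2.unpair.1 q.2 :=
    sigma_uu1.comp (c_pair he hi')
  have h3 : ComputablePred fun q : (ℕ × ℕ) × ℕ => (q.1.2 ≠ q.2 ∨ (q.1.2 < q.1.1.unpair.1 + 3 ∧
      (q.1.1.unpair.2.unpair.2 = q.1.2 ∨
        q.1.1.unpair.2.unpair.2 = (q.1.2 + 1) % (q.1.1.unpair.1 + 3)))) := by
    have hm : Computable fun q : (ℕ × ℕ) × ℕ => (q.1.2 + 1) % (q.1.1.unpair.1 + 3) :=
      (Primrec.nat_mod.to_comp).comp (c_succ hi) (c_add hn (c_const 3))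
    exact p_or (p_not (p_eq hi hi')) (p_and (p_lt hi (c_add hn (c_const 3)))
      (p_or (p_eq hj hi) (p_eq hj hm)))
  exact Sigma11.ex (P := fun p : ℕ × ℕ => ∃ i', UU1 p.1.unpair.2.unpair.1 p.2 ∧
    UU1 p.1.unpair.2.unpair.1 i' ∧ (p.2 ≠ i' ∨ (p.2 < p.1.unpair.1 + 3 ∧
      (p.1.unpair.2.unpair.2 = p.2 ∨ p.1.unpair.2.unpair.2 = (p.2 + 1) % (p.1.unpair.1 + 3)))))
    (Sigma11.ex (h1.and (h2.and (Sigma11.of_computable h3))))

/-- the type of the activity -/
theorem act_type (n e : ℕ) : ∃ J, ∀ j < n + 3, RR n e j ↔ Ac n J j := by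
  by_cases h : ∃ i i', UU1 e i ∧ UU1 e i' ∧ i ≠ i'
  · obtain ⟨i, i', h1, h2, h3⟩ := h
    exact ⟨0, fun j _ => ⟨fun _ => Or.inl rfl, fun _ => ⟨i, i', h1, h2, Or.inl h3⟩⟩⟩
  · push Not at h
    by_cases h' : ∃ i, UU1 e i
    · obtain ⟨i, hi⟩ := h'
      refine ⟨i + 1, fun j _ => ⟨?_, ?_⟩⟩
      · rintro ⟨a, a', h1, h2, h3⟩
        have ha : a = i := h a i h1 hi
        have ha' : a = a' := h a a' h1 h2
        rcases h3 with h3 | ⟨h3, h4⟩
        · exact absurd ha' h3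
        · rw [ha] at h3 h4
          refine Or.inr ⟨by omega, ?_⟩
          rcases h4 with h4 | h4
          · exact Or.inl (by omega)
          · exact Or.inr h4
      · rintro (h1 | ⟨h1, h2⟩)
        · omega
        · refine ⟨i, i, hi, hi, Or.inr ⟨by omega, ?_⟩⟩
          rcases h2 with h2 | h2
          · exact Or.inl (by omega)
          · exact Or.inr h2
    · refine ⟨n + 4, fun j _ => ⟨?_, ?_⟩⟩
      · rintro ⟨a, _, h1, _⟩
        exact absurd ⟨a, h1⟩ h'
      · rintro (h1 | ⟨h1, _⟩) <;> omega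

/-! ### the nodes -/

noncomputable def nd (n e j : ℕ) : ℕ :=
  (exists_nodes sigma_RR).choose (Nat.pair n (Nat.pair e j))

theorem nd_inj {n e j n' e' j' : ℕ} (h : nd n e j = nd n' e' j') : n = n' ∧ e = e' ∧ j = j' := by
  have h1 := (exists_nodes sigma_RR).choose_spec.2.1 h
  rw [Nat.pair_eq_pair, Nat.pair_eq_pair] at h1
  exact h1

theorem nd_top (n e j : ℕ) : 1 ≤ nd n e j ∧ pH (nd n e j) = 0 :=
  (exists_nodes sigma_RR).choose_spec.2.2.1 _

theorem xb_nd (n e j : ℕ) : XB (nd n e j) ↔ RR n e j := by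
  have h := (exists_nodes sigma_RR).choose_spec.2.2.2 (Nat.pair n (Nat.pair e j))
  simp only [Nat.unpair_pair] at h
  exact h

theorem hf_nd : HF fun q : ℕ × ℕ × ℕ => nd q.1 q.2.1 q.2.2 :=
  (exists_nodes sigma_RR).choose_spec.1.comp (HF.of_computable
    (c_npair (c_fst c_id) (c_npair (c_fst (c_snd c_id)) (c_snd (c_snd c_id)))))

/-! ### the lists -/

/-- The list for the cycle of length `n + 3`, the activity `e` and the bits of `x`; the first two
entries are a marker. -/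
noncomputable def LL (n e x : ℕ) : List (ℕ × Bool) :=
  (nd n e (n + 3), false) :: (nd n e (n + 3), true) ::
    (List.range (n + 3)).map fun j => (nd n e j, x.testBit j)

theorem mem_LL {n e x v : ℕ} {b : Bool} : (v, b) ∈ LL n e x ↔
    v = nd n e (n + 3) ∨ ∃ j < n + 3, v = nd n e j ∧ b = x.testBit j := by
  unfold LL
  simp only [List.mem_cons, List.mem_map, List.mem_range, Prod.mk.injEq]
  constructor
  · rintro (⟨h, _⟩ | ⟨h, _⟩ | ⟨j, hj, h1, h2⟩)
    · exact Or.inl h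
    · exact Or.inl h
    · exact Or.inr ⟨j, hj, h1.symm, h2.symm⟩
  · rintro (h | ⟨j, hj, h1, h2⟩)
    · cases b
      · exact Or.inl ⟨h, rfl⟩
      · exact Or.inr (Or.inl ⟨h, rfl⟩)
    · exact Or.inr (Or.inr ⟨j, hj, h1.symm, h2.symm⟩)

theorem mem_LL_nd {n e x j : ℕ} {b : Bool} (hj : j < n + 3) :
    (nd n e j, b) ∈ LL n e x ↔ b = x.testBit j := by
  rw [mem_LL]
  constructor
  · rintro (h | ⟨j', hj', h1, h2⟩)
    · have := (nd_inj h).2.2
      omega
    · rw [(nd_inj h1).2.2]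
      exact h2
  · intro h
    exact Or.inr ⟨j, hj, rfl, h⟩

theorem mem_act {t : ℕ → ℕ} {l : List (ℕ × Bool)} {v : ℕ} {b : Bool} :
    (v, b) ∈ act t l ↔ (v, b ^^ par (t v)) ∈ l := by
  unfold act
  rw [List.mem_map]
  constructor
  · rintro ⟨q, hq, h⟩
    have h1 : q.1 = v := congrArg Prod.fst h
    have h2 : (q.2 ^^ par (t q.1)) = b := congrArg Prod.snd h
    have h3 : q = (v, b ^^ par (t v)) := by
      refine Prod.ext h1 ?_
      rw [← h2, ← h1]
      simp
    rw [← h3]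
    exact hq
  · intro h
    refine ⟨_, h, ?_⟩
    simp

theorem exists_bits (f : ℕ → Bool) (N : ℕ) : ∃ x : ℕ, ∀ j < N, x.testBit j = f j :=
  ⟨Nat.ofBits fun i : Fin N => f i, fun j hj => Nat.testBit_ofBits_lt _ j hj⟩

theorem dec_ne (a b : Bool) {h : Decidable (a ≠ b)} : @decide (a ≠ b) h = (a ^^ b) := by
  revert h
  cases a <;> cases b <;> simp

/-- the translates -/
theorem act_LL (t : ℕ → ℕ) (n e x : ℕ) : ∃ x', ∀ v b, (v, b) ∈ act t (LL n e x) ↔
    (v, b) ∈ LL n e x' := by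
  obtain ⟨x', hx'⟩ := exists_bits (fun j => x.testBit j ^^ par (t (nd n e j))) (n + 3)
  refine ⟨x', fun v b => ?_⟩
  rw [mem_act, mem_LL, mem_LL]
  refine or_congr_right (exists_congr fun j => and_congr_right fun hj => and_congr_right fun hv => ?_)
  subst hv
  rw [hx' j hj]
  cases b <;> cases x.testBit j <;> cases par (t (nd n e j)) <;> simp

theorem iso_LL {n e x n' e' x' : ℕ} :
    Iso (toS (MS (PL (LL n e x)))) (toS (MS (PL (LL n' e' x')))) ↔
      n = n' ∧ e = e' ∧ ∀ j < n + 3, x.testBit j ≠ x'.testBit j → RR n e j := by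
  rw [iso_toS, ms_iso]
  constructor
  · rintro ⟨t, hF, ht⟩
    have hb : ∀ v, (v, false) ∈ LL n e x ↔ (v, par (t v)) ∈ LL n' e' x' := by
      intro v
      have h1 := ht (Nat.pair v 0) (valid_base _ v)
      unfold PL at h1
      rw [sh_fst, sh_snd, par_xor, Nat.unpair_pair, par_zero, Bool.false_xor] at h1
      exact h1
    have h1 := (hb (nd n e (n + 3))).1 (mem_LL.2 (Or.inl rfl))
    have h2 : n = n' ∧ e = e' := by
      rcases mem_LL.1 h1 with h | ⟨j, _, h, _⟩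
      · exact ⟨(nd_inj h).1, (nd_inj h).2.1⟩
      · exact ⟨(nd_inj h).1, (nd_inj h).2.1⟩
    obtain ⟨rfl, rfl⟩ := h2
    refine ⟨rfl, rfl, fun j hj hne => ?_⟩
    have h3 := hb (nd n e j)
    rw [mem_LL_nd hj, mem_LL_nd hj] at h3
    have h4 : par (t (nd n e j)) = true := by
      revert h3 hne
      cases x.testBit j <;> cases x'.testBit j <;> cases par (t (nd n e j)) <;> simp
    rw [← xb_nd]
    exact ⟨(nd_top n e j).1, (nd_top n e j).2, t, hF, h4⟩
  · rintro ⟨rfl, rfl, h⟩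
    classical
    let U : Finset ℕ := ((Finset.range (n + 3)).filter fun j =>
      x.testBit j ≠ x'.testBit j).image fun j => nd n e j
    have hmem : ∀ j < n + 3, (nd n e j ∈ U ↔ x.testBit j ≠ x'.testBit j) := by
      intro j hj
      show nd n e j ∈ Finset.image _ _ ↔ _
      rw [Finset.mem_image]
      constructor
      · rintro ⟨i, hi, h1⟩
        rw [← (nd_inj h1).2.2]
        exact (Finset.mem_filter.1 hi).2
      · intro h1
        exact ⟨j, Finset.mem_filter.2 ⟨Finset.mem_range.2 hj, h1⟩, rfl⟩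
    obtain ⟨t, hF, ht⟩ := top_flow U (by
      intro u hu
      obtain ⟨j, hj, rfl⟩ := Finset.mem_image.1 hu
      obtain ⟨h1, h2⟩ := Finset.mem_filter.1 hj
      exact (xb_nd n e j).2 (h j (Finset.mem_range.1 h1) h2))
    refine ⟨t, hF, fun p _ => ?_⟩
    rw [pl_sh]
    unfold PL
    rw [mem_act, mem_LL, mem_LL]
    refine or_congr_right (exists_congr fun j => and_congr_right fun hj =>
      and_congr_right fun hv => ?_)
    rw [hv, ht _ (nd_top n e j).1 (nd_top n e j).2]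
    have h1 : decide (nd n e j ∈ U) = (x.testBit j ^^ x'.testBit j) :=
      (decide_eq_decide.2 (hmem j hj)).trans (dec_ne _ _ (h := inferInstance))
    rw [h1]
    cases x.testBit j <;> cases x'.testBit j <;> cases par p.unpair.2 <;> simp

/-! ### complexity of the lists -/

theorem HF.tab {f : α × ℕ → β} (hf : HF f) {k : α → ℕ} (hk : Computable k) :
    HF fun a => (List.range (k a)).map fun i => f (a, i) := by
  have h1 : Delta11 fun q : (α × List β) × ℕ => q.1.2[q.2]? = some (f (q.1.1, q.2)) := by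
    have h2 : HF fun q : (α × List β) × ℕ => f (q.1.1, q.2) :=
      hf.comp (HF.of_computable (c_pair (c_fst (c_fst c_id)) (c_snd c_id)))
    refine h2.sub (P := fun r : ((α × List β) × ℕ) × β => r.1.1.2[r.1.2]? = some r.2) ?_
    exact Delta11.of_computable (eq_comp (Computable.list_getElem?.comp
      (c_snd (c_fst (c_fst c_id))) (c_snd (c_fst c_id))) (Computable.option_some.comp (c_snd c_id)))
  have h3 : Delta11 fun p : α × List β => ∀ i, i < k p.1 → p.2[i]? = some (f (p.1, i)) :=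
    Delta11.all (P := fun q : (α × List β) × ℕ => q.2 < k q.1.1 →
      q.1.2[q.2]? = some (f (q.1.1, q.2)))
      ((Delta11.of_computable (p_lt (c_snd c_id) (hk.comp (c_fst (c_fst c_id))))).imp h1)
  have h4 : Delta11 fun p : α × List β => p.2.length = k p.1 :=
    Delta11.of_computable (p_eq (Computable.list_length.comp (c_snd c_id)) (hk.comp (c_fst c_id)))
  refine (h4.and h3).of_iff fun p => ?_
  obtain ⟨a, l⟩ := p
  show (List.range (k a)).map (fun i => f (a, i)) = l ↔ l.length = k a ∧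
    ∀ i, i < k a → l[i]? = some (f (a, i))
  constructor
  · rintro rfl
    refine ⟨by simp, fun i hi => by simp [hi]⟩
  · rintro ⟨h5, h6⟩
    refine List.ext_getElem? fun i => ?_
    by_cases hi : i < k a
    · rw [h6 i hi]
      simp [hi]
    · rw [List.getElem?_eq_none (by simp; omega), List.getElem?_eq_none (by omega)]

theorem hf_LL : HF fun q : ℕ × ℕ × ℕ => LL q.1 q.2.1 q.2.2 := by
  have hn : Computable fun q : ℕ × ℕ × ℕ => q.1 + 3 := c_add (c_fst c_id) (c_const 3)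
  have hN : HF fun q : ℕ × ℕ × ℕ => nd q.1 q.2.1 (q.1 + 3) :=
    hf_nd.comp (HF.of_computable (c_pair (c_fst c_id) (c_pair (c_fst (c_snd c_id)) hn)))
  have h1 : HF fun p : (ℕ × ℕ × ℕ) × ℕ => (nd p.1.1 p.1.2.1 p.2, p.1.2.2.testBit p.2) := by
    refine HF.pair ?_ (HF.of_computable (c_testBit (c_snd (c_snd (c_fst c_id))) (c_snd c_id)))
    exact hf_nd.comp (HF.of_computable (c_pair (c_fst (c_fst c_id))
      (c_pair (c_fst (c_snd (c_fst c_id))) (c_snd c_id))))
  have h2 : HF fun q : ℕ × ℕ × ℕ =>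
      (List.range (q.1 + 3)).map fun i => (nd q.1 q.2.1 i, q.2.2.testBit i) := h1.tab hn
  have hc : Computable fun r : ℕ × List (ℕ × Bool) =>
      (r.1, false) :: (r.1, true) :: r.2 :=
    Computable.list_cons.comp (c_pair (c_fst c_id) (c_const false))
      (Computable.list_cons.comp (c_pair (c_fst c_id) (c_const true)) (c_snd c_id))
  exact (HF.of_computable hc).comp (hN.pair h2)

/-! ### the classes -/

/-- the class given by the cycles of the lengths `n + 3`, `n ∈ A` -/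
def KC (A : Set ℕ) : Set (Struct ar2) :=
  {S | IsComputable S ∧ ∃ n e x, n ∈ A ∧ Iso (toS (MS (PL (LL n e x)))) S}

theorem kc_class (A : Set ℕ) : IsClass (KC A) := by
  refine ⟨fun S hS => hS.1, ?_⟩
  rintro S ⟨_, n, e, x, hn, hS⟩ S' hS' hSS'
  exact ⟨hS', n, e, x, hn, hS.trans hSS'⟩

theorem cls_congr {l l' : List (ℕ × Bool)} (h : ∀ v b, (v, b) ∈ l ↔ (v, b) ∈ l') {a : ℕ}
    (ha : Cls l a) : Cls l' a := by
  obtain ⟨h1, h2, f, h3, h4, h5⟩ := ha
  refine ⟨h1, h2, f, h3, h4, fun x => ?_⟩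
  rw [← h5 x]
  exact (h _ _).symm

theorem idx_kc (A : Set ℕ) (a : ℕ) : IndexSet (KC A) a ↔
    ∃ n e x, n ∈ A ∧ Cls (LL n e x) a := by
  constructor
  · rintro ⟨S, ⟨_, n, e, x, hn, hS⟩, ha⟩
    obtain ⟨h1, h2⟩ := eq_of_index ha
    rw [h2] at hS
    obtain ⟨t, _, h3⟩ := cls_of_iso h1 hS
    obtain ⟨x', hx'⟩ := act_LL t n e x
    exact ⟨n, e, x', hn, cls_congr hx' h3⟩
  · rintro ⟨n, e, x, hn, h⟩
    exact ⟨toS (SI a), ⟨⟨a, idx_of h.1⟩, n, e, x, hn, h.iso⟩, idx_of h.1⟩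

theorem delta_clsLL : Delta11 fun p : ℕ × ℕ × ℕ × ℕ => Cls (LL p.2.1 p.2.2.1 p.2.2.2) p.1 := by
  have h1 : HF fun p : ℕ × ℕ × ℕ × ℕ => LL p.2.1 p.2.2.1 p.2.2.2 :=
    hf_LL.comp (HF.of_computable (c_snd c_id))
  exact h1.sub (P := fun r : (ℕ × ℕ × ℕ × ℕ) × List (ℕ × Bool) => Cls r.2 r.1.1)
    (delta_Cls.comp (f := fun r : (ℕ × ℕ × ℕ × ℕ) × List (ℕ × Bool) => (r.1.1, r.2))
      (c_pair (c_fst (c_fst c_id)) (c_snd c_id)))

theorem kc_hyp {A : Set ℕ} (hA : Delta11 fun n => n ∈ A) : HypClass (KC A) := by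
  refine ⟨kc_class A, ?_⟩
  have h1 : Delta11 fun a : ℕ => ∃ q : ℕ × ℕ × ℕ, q.1 ∈ A ∧ Cls (LL q.1 q.2.1 q.2.2) a :=
    Delta11.ex' (P := fun p : ℕ × ℕ × ℕ × ℕ => p.2.1 ∈ A ∧ Cls (LL p.2.1 p.2.2.1 p.2.2.2) p.1)
      ((hA.comp (f := fun p : ℕ × ℕ × ℕ × ℕ => p.2.1) (c_fst (c_snd c_id))).and delta_clsLL)
  refine h1.of_iff fun a => ?_
  rw [idx_kc]
  constructor
  · rintro ⟨n, e, x, hn, h⟩
    exact ⟨(n, e, x), hn, h⟩
  · rintro ⟨⟨n, e, x⟩, hn, h⟩
    exact ⟨n, e, x, hn, h⟩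

theorem rel_iff {K : Set (Struct ar2)} {x y : ℕ} (hx : IndexSet K x) (hy : IndexSet K y) :
    IsoRel K (x, y) ↔ Iso (toS (SI x)) (toS (SI y)) := by
  obtain ⟨A, hA, hxA⟩ := hx
  obtain ⟨B, hB, hyB⟩ := hy
  obtain ⟨_, h2⟩ := eq_of_index hxA
  obtain ⟨_, h4⟩ := eq_of_index hyB
  constructor
  · rintro ⟨A', _, B', _, hx', hy', h⟩
    rw [(eq_of_index hx').2, (eq_of_index hy').2] at h
    exact h
  · intro h
    rw [← h2, ← h4] at h
    exact ⟨A, hA, B, hB, hxA, hyB, h⟩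

theorem rel_mem {K : Set (Struct ar2)} {x y : ℕ} (h : IsoRel K (x, y)) :
    IndexSet K x ∧ IndexSet K y := by
  obtain ⟨A, hA, B, hB, hx, hy, _⟩ := h
  exact ⟨⟨A, hA, hx⟩, ⟨B, hB, hy⟩⟩

theorem kc_mono {A B : Set ℕ} (h : A ⊆ B) : KC A ⊆ KC B := by
  rintro S ⟨hS, n, e, x, hn, hi⟩
  exact ⟨hS, n, e, x, h hn, hi⟩

theorem kc_red {A B : Set ℕ} (h : A ⊆ B) : HypRed (KC A) (KC B) := by
  have hsub : ∀ x, IndexSet (KC A) x → IndexSet (KC B) x := by
    rintro x ⟨S, hS, hx⟩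
    exact ⟨S, kc_mono h hS, hx⟩
  refine ⟨id, Delta11.of_computable (p_eq (c_fst c_id) (c_snd c_id)), hsub, fun x y hx hy => ?_⟩
  rw [rel_iff hx hy]
  exact (rel_iff (hsub x hx) (hsub y hy)).symm

/-- every isomorphism class is hyperarithmetic -/
theorem kc_cells {A : Set ℕ} {y : ℕ} (hy : IndexSet (KC A) y) :
    Delta11 fun a => IsoRel (KC A) (a, y) := by
  obtain ⟨n, e, x, hn, h⟩ := (idx_kc A y).1 hy
  obtain ⟨J, hJ⟩ := act_type n e
  have h1 : Delta11 fun p : ℕ × ℕ => Eqv n J x p.2 ∧ Cls (LL n e p.2) p.1 :=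
    (Delta11.of_computable (p_Eqv (c_const n) (c_const J) (c_const x) (c_snd c_id))).and
      (delta_clsLL.comp (f := fun p : ℕ × ℕ => (p.1, n, e, p.2))
        (c_pair (c_fst c_id) (c_pair (c_const n) (c_pair (c_const e) (c_snd c_id)))))
  refine h1.ex.of_iff fun a => ?_
  have hE : ∀ x', Eqv n J x x' ↔ ∀ j < n + 3, x.testBit j ≠ x'.testBit j → RR n e j := fun x' =>
    forall_congr' fun j => forall_congr' fun hj => by rw [hJ j hj]
  constructor
  · intro ha
    have hia := (rel_mem ha).1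
    have h2 := (rel_iff hia hy).1 ha
    obtain ⟨n', e', x', hn', h3⟩ := (idx_kc A a).1 hia
    have h4 := iso_LL.1 ((h.iso.trans h2.symm).trans h3.iso.symm)
    obtain ⟨rfl, rfl, h5⟩ := h4
    exact ⟨x', (hE x').2 h5, h3⟩
  · rintro ⟨x', h2, h3⟩
    have h2' : Eqv n J x x' := h2
    have h3' : Cls (LL n e x') a := h3
    have hia : IndexSet (KC A) a := (idx_kc A a).2 ⟨n, e, x', hn, h3'⟩
    rw [rel_iff hia hy]
    have h4 := iso_LL.2 ⟨rfl, rfl, (hE x').1 h2'⟩
    exact (h3'.iso.symm.trans h4.symm).trans h.iso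

end Pool.Agent.KS6_49.HY
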