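import Mathlib
import Pool.Agent.KS6_49.HY.Block

set_option autoImplicit false
set_option maxHeartbeats 400000

/-! The combinatorial lemma: the shapes given by two cycles of different lengths are not
comparable. -/

namespace Pool.Agent.KS6_49.HY

theorem mod_cases {N a : ℕ} (h : a < 2 * N) : (a < N ∧ a % N = a) ∨ (N ≤ a ∧ a % N = a - N) := by
  rcases Nat.lt_or_ge a N with h1 | h1
  · exact Or.inl ⟨h1, Nat.mod_eq_of_lt h1⟩
  · refine Or.inr ⟨h1, ?_⟩
    rw [Nat.mod_eq_sub_mod h1, Nat.mod_eq_of_lt (by omega)]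

theorem eqv_two_pow {n J i : ℕ} (hi : i < n + 3) : Eqv n J 0 (2 ^ i) ↔ Ac n J i := by
  unfold Eqv
  constructor
  · intro h
    exact h i hi (by simp)
  · intro h j _ hne
    rw [Nat.zero_testBit, Nat.testBit_two_pow] at hne
    have : i = j := by simpa using hne
    rw [← this]
    exact h

theorem ac_succ {n i j : ℕ} (hi : i < n + 3) : Ac n (i + 1) j ↔ j = i ∨ j = (i + 1) % (n + 3) := by
  unfold Ac
  constructor
  · rintro (h | ⟨_, h | h⟩)
    · omega
    · exact Or.inl (by omega)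
    · exact Or.inr h
  · rintro (h | h)
    · exact Or.inr ⟨by omega, Or.inl (by omega)⟩
    · exact Or.inr ⟨by omega, Or.inr h⟩

/-- an injective map of cycles that preserves adjacency -/
theorem cycle_eq {N M : ℕ} [NeZero N] [NeZero M] (hN : 3 ≤ N) (Ψ : ZMod N → ZMod M)
    (hi : Function.Injective Ψ) (h : ∀ z, Ψ (z + 1) = Ψ z + 1 ∨ Ψ (z + 1) = Ψ z - 1) : N = M := by
  have hd : ∀ k : ℕ, Ψ ((k : ZMod N) + 1) - Ψ k = Ψ 1 - Ψ 0 := by
    intro k
    induction k with
    | zero => simp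
    | succ k ih =>
      rw [← ih]
      have h2 : Ψ ((k : ZMod N) + 1 + 1) ≠ Ψ k := by
        intro h3
        have h4 := hi h3
        have h5 : ((2 : ℕ) : ZMod N) = 0 := by
          have : (k : ZMod N) + 1 + 1 - k = 0 := by rw [h4]; ring
          push_cast
          rw [← this]
          ring
        rw [ZMod.natCast_eq_zero_iff] at h5
        exact absurd (Nat.le_of_dvd (by norm_num) h5) (by omega)
      push_cast
      rcases h (k : ZMod N) with h5 | h5
      · rcases h ((k : ZMod N) + 1) with h6 | h6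
        · rw [h6, h5]; ring
        · exact absurd (by rw [h6, h5]; ring) h2
      · rcases h ((k : ZMod N) + 1) with h6 | h6
        · exact absurd (by rw [h6, h5]; ring) h2
        · rw [h6, h5]; ring
  have hk : ∀ k : ℕ, Ψ (k : ZMod N) = Ψ 0 + k * (Ψ 1 - Ψ 0) := by
    intro k
    induction k with
    | zero => simp
    | succ k ih =>
      have h1 := hd k
      push_cast
      rw [sub_eq_iff_eq_add] at h1
      rw [h1, ih]
      ring
  have h1 := hk N
  rw [ZMod.natCast_self] at h1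
  have h2 : (N : ZMod M) * (Ψ 1 - Ψ 0) = 0 := by
    have h3 : Ψ 0 + (N : ZMod M) * (Ψ 1 - Ψ 0) = Ψ 0 + 0 := by rw [← h1, add_zero]
    exact add_left_cancel h3
  have h3 : (N : ZMod M) = 0 := by
    have h4 := h 0
    rw [zero_add] at h4
    rcases h4 with h4 | h4
    · rw [h4] at h2
      simpa using h2
    · rw [h4] at h2
      have h5 : (N : ZMod M) * (Ψ 0 - 1 - Ψ 0) = -(N : ZMod M) := by ring
      rw [h5, neg_eq_zero] at h2
      exact h2
  rw [ZMod.natCast_eq_zero_iff] at h3
  have h4 := Fintype.card_le_of_injective Ψ hi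
  rw [ZMod.card, ZMod.card] at h4
  exact le_antisymm h4 (Nat.le_of_dvd (by omega) h3)

/-- the combinatorial lemma -/
theorem comb {n m : ℕ} (c : ℕ → ℕ)
    (h : ∀ J, ∃ J', ∀ x y, Eqv n J x y ↔ Eqv m J' (c x) (c y)) : n = m := by
  choose F hF using h
  -- `c` is injective on the low bits
  have hE : ∀ x y, (∀ j < m + 3, (c x).testBit j = (c y).testBit j) →
      ∀ j < n + 3, x.testBit j = y.testBit j := by
    intro x y hxy j hj
    by_contra hne
    have h1 : Eqv m (F (n + 4)) (c x) (c y) := fun i hi hne' => absurd (hxy i hi) hne'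
    have h2 := (hF _ _ _).2 h1 j hj hne
    rcases h2 with h2 | ⟨h2, _⟩ <;> omega
  have hdiff : ∀ i < n + 3, ∃ b < m + 3, (c 0).testBit b ≠ (c (2 ^ i)).testBit b := by
    intro i hi
    by_contra hc
    push Not at hc
    have := hE 0 (2 ^ i) hc i hi
    simp at this
  have hpos : ∀ i < n + 3, F (i + 1) ≠ 0 := by
    intro i hi h0
    have h1 : Eqv m (F (i + 1)) (c 0) (c (2 ^ ((i + 2) % (n + 3)))) := by
      rw [h0]
      exact fun j _ _ => Or.inl rfl
    have hlt : (i + 2) % (n + 3) < n + 3 := Nat.mod_lt _ (by omega)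
    rw [← hF, eqv_two_pow hlt, ac_succ hi] at h1
    have h2 := mod_cases (N := n + 3) (a := i + 2) (by omega)
    have h3 := mod_cases (N := n + 3) (a := i + 1) (by omega)
    omega
  have hle : ∀ i < n + 3, F (i + 1) ≤ m + 3 := by
    intro i hi
    by_contra hc
    have h1 : Eqv n (i + 1) 0 (2 ^ i) := (eqv_two_pow hi).2 ((ac_succ hi).2 (Or.inl rfl))
    rw [hF] at h1
    obtain ⟨b, hb, hne⟩ := hdiff i hi
    rcases h1 b hb hne with h2 | ⟨h2, _⟩
    · exact hpos i hi h2
    · exact hc h2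
  have hcommon : ∀ i < n + 3, ∀ i' < n + 3, ∀ j < n + 3, Ac n (i + 1) j → Ac n (i' + 1) j →
      ∃ b < m + 3, (b = F (i + 1) - 1 ∨ b = (F (i + 1) - 1 + 1) % (m + 3)) ∧
        (b = F (i' + 1) - 1 ∨ b = (F (i' + 1) - 1 + 1) % (m + 3)) := by
    intro i hi i' hi' j hj h1 h2
    rw [← eqv_two_pow hj, hF] at h1 h2
    obtain ⟨b, hb, hne⟩ := hdiff j hj
    have h3 := hpos i hi
    have h4 := hpos i' hi'
    have h5 := hle i hi
    have h6 := hle i' hi'
    have e1 : F (i + 1) = (F (i + 1) - 1) + 1 := by omega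
    have e2 : F (i' + 1) = (F (i' + 1) - 1) + 1 := by omega
    have h7 := h1 b hb hne
    have h8 := h2 b hb hne
    rw [e1, ac_succ (by omega)] at h7
    rw [e2, ac_succ (by omega)] at h8
    exact ⟨b, hb, h7, h8⟩
  have hinj : ∀ i < n + 3, ∀ i' < n + 3, F (i + 1) = F (i' + 1) → i = i' := by
    intro i hi i' hi' he
    have key : ∀ j < n + 3, Ac n (i + 1) j ↔ Ac n (i' + 1) j := by
      intro j hj
      rw [← eqv_two_pow hj, ← eqv_two_pow hj, hF, hF, he]
    have h1 := (key i hi).1 ((ac_succ hi).2 (Or.inl rfl))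
    have h2 := (key i' hi').2 ((ac_succ hi').2 (Or.inl rfl))
    rw [ac_succ hi'] at h1
    rw [ac_succ hi] at h2
    have h3 := mod_cases (N := n + 3) (a := i + 1) (by omega)
    have h4 := mod_cases (N := n + 3) (a := i' + 1) (by omega)
    omega
  let Ψ : ZMod (n + 3) → ZMod (m + 3) := fun z => ((F (z.val + 1) - 1 : ℕ) : ZMod (m + 3))
  have hv : ∀ z : ZMod (n + 3), z.val < n + 3 := fun z => ZMod.val_lt z
  have hΨi : Function.Injective Ψ := by
    intro z z' hz
    have h1 : ((F (z.val + 1) - 1 : ℕ) : ZMod (m + 3)) = ((F (z'.val + 1) - 1 : ℕ) : ZMod (m + 3)) :=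
      hz
    rw [ZMod.natCast_eq_natCast_iff'] at h1
    have h2 := hpos z.val (hv z)
    have h3 := hpos z'.val (hv z')
    have h4 := hle z.val (hv z)
    have h5 := hle z'.val (hv z')
    rw [Nat.mod_eq_of_lt (by omega), Nat.mod_eq_of_lt (by omega)] at h1
    exact ZMod.val_injective _ (hinj _ (hv z) _ (hv z') (by omega))
  have hmain := cycle_eq (N := n + 3) (M := m + 3) (by omega) Ψ hΨi ?_
  · omega
  intro z
  have hz1 : (z + 1).val = (z.val + 1) % (n + 3) := by
    rw [ZMod.val_add, ZMod.val_one'' (by omega)]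
  have hne : z + 1 ≠ z := by
    intro h1
    have h2 : (1 : ZMod (n + 3)) = 0 := by
      have : z + 1 = z + 0 := by rw [add_zero]; exact h1
      exact add_left_cancel this
    have h3 : ((1 : ℕ) : ZMod (n + 3)) = 0 := by rw [Nat.cast_one]; exact h2
    rw [ZMod.natCast_eq_zero_iff] at h3
    exact absurd (Nat.le_of_dvd (by norm_num) h3) (by omega)
  have hj : (z.val + 1) % (n + 3) < n + 3 := Nat.mod_lt _ (by omega)
  obtain ⟨b, hb, h1, h2⟩ := hcommon z.val (hv z) (z + 1).val (hv _) ((z.val + 1) % (n + 3)) hj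
    ((ac_succ (hv z)).2 (Or.inr rfl)) ((ac_succ (hv _)).2 (Or.inl hz1.symm))
  have h1' : (b : ZMod (m + 3)) = Ψ z ∨ (b : ZMod (m + 3)) = Ψ z + 1 := by
    rcases h1 with h1 | h1
    · left
      show (b : ZMod (m + 3)) = ((F (z.val + 1) - 1 : ℕ) : ZMod (m + 3))
      rw [h1]
    · right
      show (b : ZMod (m + 3)) = ((F (z.val + 1) - 1 : ℕ) : ZMod (m + 3)) + 1
      rw [h1, ZMod.natCast_mod, Nat.cast_add, Nat.cast_one]
  have h2' : (b : ZMod (m + 3)) = Ψ (z + 1) ∨ (b : ZMod (m + 3)) = Ψ (z + 1) + 1 := by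
    rcases h2 with h2 | h2
    · left
      show (b : ZMod (m + 3)) = ((F ((z + 1).val + 1) - 1 : ℕ) : ZMod (m + 3))
      rw [h2]
    · right
      show (b : ZMod (m + 3)) = ((F ((z + 1).val + 1) - 1 : ℕ) : ZMod (m + 3)) + 1
      rw [h2, ZMod.natCast_mod, Nat.cast_add, Nat.cast_one]
  rcases h1' with h3 | h3
  · rcases h2' with h4 | h4
    · exact absurd (hΨi (h4.symm.trans h3)) hne
    · right
      rw [eq_sub_iff_add_eq, ← h4, h3]
  · rcases h2' with h4 | h4
    · left
      rw [← h4, h3]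
    · exact absurd (hΨi (add_right_cancel (h4.symm.trans h3))) hne

end Pool.Agent.KS6_49.HY
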