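import Mathlib
import Pool.Agent.KS6_49.HY.Comb

set_option autoImplicit false
set_option maxHeartbeats 400000

/-! The order of the classes under hyperarithmetic reducibility. -/

namespace Pool.Agent.KS6_49.HY

open Encodable Denumerable Nat.Partrec Pool.Agent.Helper941 Pool.Agent.Helper941.IsoProb
open Pool.Agent.Helper941.Zeta Pool.Agent.Helper941.Dim Pool.Agent.Helper941.Hyp
open Pool.Agent.Y670.HI

variable {g : List (ℕ × Bool) → ℕ}

theorem gc_mem (hg : ∀ l, IndexOf (g l) (toS (MS (PL l)))) {A : Set ℕ} {n : ℕ} (hn : n ∈ A)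
    (e x : ℕ) : IndexSet (KC A) (g (LL n e x)) :=
  ⟨toS (MS (PL (LL n e x))), ⟨⟨_, hg _⟩, n, e, x, hn, Iso.refl _⟩, hg _⟩

theorem gc_rel (hg : ∀ l, IndexOf (g l) (toS (MS (PL l)))) {A : Set ℕ} {n : ℕ} (hn : n ∈ A)
    (e x y : ℕ) : IsoRel (KC A) (g (LL n e x), g (LL n e y)) ↔
      ∀ j < n + 3, x.testBit j ≠ y.testBit j → RR n e j := by
  rw [rel_iff (gc_mem hg hn e x) (gc_mem hg hn e y), ← (eq_of_index (hg (LL n e x))).2,
    ← (eq_of_index (hg (LL n e y))).2, iso_LL]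
  exact ⟨fun h => h.2.2, fun h => ⟨rfl, rfl, h⟩⟩

theorem hf_g (hg : Computable g) (n : ℕ) : HF fun p : ℕ × ℕ => g (LL n p.1 p.2) :=
  (HF.of_computable hg).comp (hf_LL.comp (HF.of_computable
    (c_pair (c_const n) (c_pair (c_fst c_id) (c_snd c_id)))))

theorem kc_not_delta {A : Set ℕ} (hA : A.Nonempty) : ¬ Delta11 (IsoRel (KC A)) := by
  intro h
  obtain ⟨n, hn⟩ := hA
  obtain ⟨g, hgc, hg⟩ := exists_g
  have h1 : Delta11 fun p : ℕ × ℕ => ¬ IsoRel (KC A) (g (LL n p.1 0), g (LL n p.1 1)) := by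
    refine Delta11.not ?_
    refine HF.pred2 (f := fun p : ℕ × ℕ => g (LL n p.1 0)) (g := fun p : ℕ × ℕ => g (LL n p.1 1))
      ?_ ?_ (P := IsoRel (KC A)) h
    · exact (hf_g hgc n).comp (HF.of_computable (c_pair (c_fst c_id) (c_const 0)))
    · exact (hf_g hgc n).comp (HF.of_computable (c_pair (c_fst c_id) (c_const 1)))
  obtain ⟨e, he⟩ := recur h1.1
  have he' : ∀ x, UU1 e x ↔ ¬ IsoRel (KC A) (g (LL n e 0), g (LL n e 1)) := he
  by_cases h2 : IsoRel (KC A) (g (LL n e 0), g (LL n e 1))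
  · have h3 := (gc_rel hg hn e 0 1).1 h2 0 (by omega) (by simp)
    obtain ⟨i, _, h4, _⟩ := h3
    exact (he' i).1 h4 h2
  · refine h2 ((gc_rel hg hn e 0 1).2 fun j _ _ => ?_)
    exact ⟨0, 1, (he' 0).2 h2, (he' 1).2 h2, Or.inl (by omega)⟩

/-- the coded triples -/
def TE (J q q' : ℕ) : Prop := q.unpair.1 = q'.unpair.1 ∧
  q.unpair.2.unpair.1 = q'.unpair.2.unpair.1 ∧
    Eqv q.unpair.1 J q.unpair.2.unpair.2 q'.unpair.2.unpair.2

/-- the main point -/
theorem kc_not_red {A B : Set ℕ} (hB : Delta11 fun n => n ∈ B) {n : ℕ} (hnA : n ∈ A)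
    (hnB : n ∉ B) : ¬ HypRed (KC A) (KC B) := by
  rintro ⟨f, hf, h1, h2⟩
  obtain ⟨g, hgc, hg⟩ := exists_g
  -- canonical codes for the images
  let D : ℕ × ℕ → Prop := fun p => p.2.unpair.1 ∈ B ∧
    Cls (LL p.2.unpair.1 p.2.unpair.2.unpair.1 p.2.unpair.2.unpair.2) p.1
  have hD : Delta11 D := by
    refine (hB.comp (f := fun p : ℕ × ℕ => p.2.unpair.1) (c_up1 (c_snd c_id))).and ?_
    exact delta_clsLL.comp (f := fun p : ℕ × ℕ =>
      (p.1, p.2.unpair.1, p.2.unpair.2.unpair.1, p.2.unpair.2.unpair.2))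
      (c_pair (c_fst c_id) (c_pair (c_up1 (c_snd c_id)) (c_pair (c_up1 (c_up2 (c_snd c_id)))
        (c_up2 (c_up2 (c_snd c_id))))))
  let T : ℕ → ℕ := fun a => sInf {q | D (a, q)}
  have hT : HF T := HF.least hD
  have hTD : ∀ a, IndexSet (KC B) a → D (a, T a) := by
    intro a ha
    obtain ⟨m, e, x, hm, hx⟩ := (idx_kc B a).1 ha
    refine Nat.sInf_mem (s := {q | D (a, q)}) ⟨Nat.pair m (Nat.pair e x), ?_⟩
    show (Nat.pair m (Nat.pair e x)).unpair.1 ∈ B ∧ _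
    simp only [Nat.unpair_pair]
    exact ⟨hm, hx⟩
  let t : ℕ × ℕ → ℕ := fun p => T (f (g (LL n p.1 p.2)))
  have ht : HF t := hT.comp ((show HF f from hf).comp (hf_g hgc n))
  -- the patterns that are consistent with the images
  let C : ℕ × ℕ → Prop := fun p => ∃ J', ∀ x, ∀ y,
    (Eqv n p.2 x y ↔ TE J' (t (p.1, x)) (t (p.1, y)))
  have hC : Delta11 C := by
    have h3 : Delta11 fun r : (((ℕ × ℕ) × ℕ) × ℕ) × ℕ =>
        TE r.1.1.2 (t (r.1.1.1.1, r.1.2)) (t (r.1.1.1.1, r.2)) := by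
      have h4 : HF fun r : (((ℕ × ℕ) × ℕ) × ℕ) × ℕ =>
          (t (r.1.1.1.1, r.1.2), t (r.1.1.1.1, r.2)) :=
        (ht.comp (HF.of_computable (c_pair (c_fst (c_fst (c_fst (c_fst c_id))))
          (c_snd (c_fst c_id))))).pair (ht.comp (HF.of_computable
            (c_pair (c_fst (c_fst (c_fst (c_fst c_id)))) (c_snd c_id))))
      refine h4.sub (P := fun s : ((((ℕ × ℕ) × ℕ) × ℕ) × ℕ) × (ℕ × ℕ) =>
        TE s.1.1.1.2 s.2.1 s.2.2) (Delta11.of_computable ?_)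
      have hJ : Computable fun s : ((((ℕ × ℕ) × ℕ) × ℕ) × ℕ) × (ℕ × ℕ) => s.1.1.1.2 :=
        c_snd (c_fst (c_fst (c_fst c_id)))
      have hq : Computable fun s : ((((ℕ × ℕ) × ℕ) × ℕ) × ℕ) × (ℕ × ℕ) => s.2.1 :=
        c_fst (c_snd c_id)
      have hq' : Computable fun s : ((((ℕ × ℕ) × ℕ) × ℕ) × ℕ) × (ℕ × ℕ) => s.2.2 :=
        c_snd (c_snd c_id)
      unfold TE
      exact p_and (p_eq (c_up1 hq) (c_up1 hq')) (p_and (p_eq (c_up1 (c_up2 hq))
        (c_up1 (c_up2 hq'))) (p_Eqv (c_up1 hq) hJ (c_up2 (c_up2 hq)) (c_up2 (c_up2 hq'))))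
    have h5 : Delta11 fun r : (((ℕ × ℕ) × ℕ) × ℕ) × ℕ => Eqv n r.1.1.1.2 r.1.2 r.2 :=
      Delta11.of_computable (p_Eqv (c_const n) (c_snd (c_fst (c_fst (c_fst c_id))))
        (c_snd (c_fst c_id)) (c_snd c_id))
    exact Delta11.ex (P := fun q : (ℕ × ℕ) × ℕ => ∀ x, ∀ y,
        (Eqv n q.1.2 x y ↔ TE q.2 (t (q.1.1, x)) (t (q.1.1, y))))
      (Delta11.all (P := fun q : ((ℕ × ℕ) × ℕ) × ℕ => ∀ y,
        (Eqv n q.1.1.2 q.2 y ↔ TE q.1.2 (t (q.1.1.1, q.2)) (t (q.1.1.1, y))))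
      (Delta11.all (P := fun r : (((ℕ × ℕ) × ℕ) × ℕ) × ℕ =>
        (Eqv n r.1.1.1.2 r.1.2 r.2 ↔ TE r.1.1.2 (t (r.1.1.1.1, r.1.2)) (t (r.1.1.1.1, r.2))))
      (h5.iff h3)))
  -- the first inconsistent pattern
  let Js : ℕ → ℕ := fun e => sInf {J | ¬ C (e, J)}
  have hJs : HF Js := HF.least (D := fun p => ¬ C p) hC.not
  have hQ : Delta11 fun p : ℕ × ℕ => Js p.1 = 0 ∨ p.2 + 1 = Js p.1 := by
    have h3 : HF fun p : ℕ × ℕ => Js p.1 := hJs.comp (HF.of_computable (c_fst c_id))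
    exact h3.sub (P := fun r : (ℕ × ℕ) × ℕ => r.2 = 0 ∨ r.1.2 + 1 = r.2)
      (Delta11.of_computable (p_or (p_eq (c_snd c_id) (c_const 0))
        (p_eq (c_succ (c_snd (c_fst c_id))) (c_snd c_id))))
  obtain ⟨e, he⟩ := recur hQ.1
  have he' : ∀ i, UU1 e i ↔ (Js e = 0 ∨ i + 1 = Js e) := he
  -- the activity of `e`
  have hact : ∀ j < n + 3, RR n e j ↔ Ac n (Js e) j := by
    intro j _
    by_cases h0 : Js e = 0
    · refine ⟨fun _ => Or.inl h0, fun _ => ?_⟩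
      exact ⟨0, 1, (he' 0).2 (Or.inl h0), (he' 1).2 (Or.inl h0), Or.inl (by omega)⟩
    · have h3 : ∀ i, UU1 e i ↔ i + 1 = Js e := fun i => by
        rw [he' i]
        exact or_iff_right h0
      constructor
      · rintro ⟨i, i', h4, h5, h6⟩
        rw [h3] at h4 h5
        rcases h6 with h6 | ⟨h6, h7⟩
        · omega
        · refine Or.inr ⟨by omega, ?_⟩
          rw [← h4]
          rcases h7 with h7 | h7
          · exact Or.inl (by omega)
          · exact Or.inr h7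
      · rintro (h4 | ⟨h4, h5⟩)
        · exact absurd h4 h0
        · obtain ⟨i, hi⟩ : ∃ i, i + 1 = Js e := ⟨Js e - 1, by omega⟩
          refine ⟨i, i, (h3 i).2 hi, (h3 i).2 hi, Or.inr ⟨by omega, ?_⟩⟩
          rw [← hi] at h5
          rcases h5 with h5 | h5
          · exact Or.inl (by omega)
          · exact Or.inr h5
  -- the images
  let q : ℕ → ℕ := fun x => t (e, x)
  have hmem : ∀ x, IndexSet (KC B) (f (g (LL n e x))) := fun x => h1 _ (gc_mem hg hnA e x)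
  have hq : ∀ x, D (f (g (LL n e x)), q x) := fun x => hTD _ (hmem x)
  have hrel : ∀ x y, Eqv n (Js e) x y ↔ ((q x).unpair.1 = (q y).unpair.1 ∧
      (q x).unpair.2.unpair.1 = (q y).unpair.2.unpair.1 ∧
      ∀ j < (q x).unpair.1 + 3, (q x).unpair.2.unpair.2.testBit j ≠
        (q y).unpair.2.unpair.2.testBit j → RR (q x).unpair.1 (q x).unpair.2.unpair.1 j) := by
    intro x y
    have h3 : Eqv n (Js e) x y ↔ IsoRel (KC A) (g (LL n e x), g (LL n e y)) := by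
      rw [gc_rel hg hnA]
      exact forall_congr' fun j => forall_congr' fun hj => by rw [hact j hj]
    rw [h3, h2 _ _ (gc_mem hg hnA e x) (gc_mem hg hnA e y), rel_iff (hmem x) (hmem y), ← iso_LL]
    have h4 := (hq x).2.iso
    have h5 := (hq y).2.iso
    exact ⟨fun h => (h4.trans h).trans h5.symm, fun h => (h4.symm.trans h).trans h5⟩
  have hsame : ∀ x, (q x).unpair.1 = (q 0).unpair.1 ∧
      (q x).unpair.2.unpair.1 = (q 0).unpair.2.unpair.1 := by
    intro x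
    by_cases h0 : Js e = 0
    · have h3 : Eqv n (Js e) x 0 := by
        rw [h0]
        exact fun j _ _ => Or.inl rfl
      have h4 := (hrel x 0).1 h3
      exact ⟨h4.1, h4.2.1⟩
    · have h3 : C (e, 0) := by
        by_contra hc
        have h4 : Js e ≤ 0 := Nat.sInf_le (s := {J | ¬ C (e, J)}) hc
        omega
      obtain ⟨J', hJ'⟩ := h3
      have h5 : Eqv n (e, 0).2 x 0 := fun j _ _ => Or.inl rfl
      have h6 := (hJ' x 0).1 h5
      exact ⟨h6.1, h6.2.1⟩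
  have hCs : C (e, Js e) := by
    obtain ⟨J', hJ'⟩ := act_type (q 0).unpair.1 (q 0).unpair.2.unpair.1
    refine ⟨J', fun x y => ?_⟩
    have h3 := hrel x y
    refine h3.trans ?_
    unfold TE
    refine and_congr_right fun _ => and_congr_right fun _ => ?_
    show (∀ j < (q x).unpair.1 + 3, _) ↔ Eqv (q x).unpair.1 J' (q x).unpair.2.unpair.2
      (q y).unpair.2.unpair.2
    rw [(hsame x).1, (hsame x).2]
    exact forall_congr' fun j => forall_congr' fun hj => by rw [hJ' j hj]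
  have hall : ∀ J, C (e, J) := by
    by_contra hc
    push Not at hc
    exact (Nat.sInf_mem (s := {J | ¬ C (e, J)}) hc) hCs
  have hn : n = (q 0).unpair.1 := by
    refine comb (fun x => (q x).unpair.2.unpair.2) fun J => ?_
    obtain ⟨J', hJ'⟩ := hall J
    refine ⟨J', fun x y => ?_⟩
    refine (hJ' x y).trans ?_
    show TE J' (q x) (q y) ↔ _
    unfold TE
    rw [(hsame x).1, (hsame x).2, (hsame y).1, (hsame y).2]
    simp
  exact hnB (hn ▸ (hq 0).1)

theorem kc_red_iff {A B : Set ℕ} (hB : Delta11 fun n => n ∈ B) :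
    HypRed (KC A) (KC B) ↔ A ⊆ B := by
  constructor
  · intro h n hn
    by_contra hc
    exact kc_not_red hB hn hc h
  · exact kc_red

theorem kc_incomplete (A : Set ℕ) : ¬ IsComplete (KC A) := fun h =>
  not_red_all (fun _ hy => kc_cells hy) (h ar2 (Computable.const 2) KA ka_hyp)

end Pool.Agent.KS6_49.HY
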