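import Mathlib
import Pool.Agent.KS6_49.HY.Main

set_option autoImplicit false
set_option maxHeartbeats 400000

/-! Every countable preorder embeds into the computable sets of natural numbers ordered by
inclusion. -/

namespace Pool.Agent.KS6_49.HY

open Encodable Denumerable Nat.Partrec Pool.Agent.Helper941 Pool.Agent.Helper941.IsoProb
open Pool.Agent.Helper941.Zeta Pool.Agent.Helper941.Dim Pool.Agent.Helper941.Hyp
open Pool.Agent.Y670.HI

section

variable {P : Type} [Preorder P] (π : ℕ → P)

open Classical in
/-- the retraction of the sequences onto the monotone sequences -/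
noncomputable def up (x : ℕ → Bool) : ℕ → Bool :=
  WellFounded.fix Nat.lt_wfRel.wf fun n (r : ∀ i, i < n → Bool) =>
    if ∃ i, ∃ h : i < n, π i ≤ π n ∧ r i h = true then true
    else if ∃ i, ∃ h : i < n, π n ≤ π i ∧ r i h = false then false
    else x n

open Classical in
theorem up_eq (x : ℕ → Bool) (n : ℕ) : up π x n =
    if ∃ i, ∃ _ : i < n, π i ≤ π n ∧ up π x i = true then true
    else if ∃ i, ∃ _ : i < n, π n ≤ π i ∧ up π x i = false then false
    else x n := by
  unfold up
  rw [WellFounded.fix_eq]

/-- the values are monotone -/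
theorem up_mono (x : ℕ → Bool) : ∀ n, ∀ i < n, ∀ j < n, π i ≤ π j → up π x i = true →
    up π x j = true := by
  intro n
  induction n with
  | zero => intro i hi; omega
  | succ n ih =>
    intro i hi j hj hij hx
    by_cases hjn : j = n
    · by_cases hin : i = n
      · rw [hjn, ← hin]; exact hx
      · rw [up_eq, if_pos]
        exact ⟨i, by omega, hij, hx⟩
    · by_cases hin : i = n
      · subst hin
        by_contra hc
        rw [Bool.not_eq_true] at hc
        rw [up_eq] at hx
        by_cases h1 : ∃ k, ∃ _ : k < i, π k ≤ π i ∧ up π x k = true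
        · obtain ⟨k, hk, h2, h3⟩ := h1
          have := ih k hk j (by omega) (h2.trans hij) h3
          rw [this] at hc
          exact absurd hc (by simp)
        · rw [if_neg h1, if_pos ⟨j, by omega, hij, hc⟩] at hx
          exact absurd hx (by simp)
      · exact ih i (by omega) j (by omega) hij hx

theorem up_self {x : ℕ → Bool} (hx : ∀ i j, π i ≤ π j → x i = true → x j = true) (n : ℕ) :
    up π x n = x n := by
  induction n using Nat.strong_induction_on with
  | _ n ih =>
    rw [up_eq]
    by_cases h1 : ∃ k, ∃ _ : k < n, π k ≤ π n ∧ up π x k = true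
    · rw [if_pos h1]
      obtain ⟨k, hk, h2, h3⟩ := h1
      rw [ih k hk] at h3
      exact (hx k n h2 h3).symm
    · rw [if_neg h1]
      by_cases h4 : ∃ i, ∃ _ : i < n, π n ≤ π i ∧ up π x i = false
      · rw [if_pos h4]
        obtain ⟨i, hi, h5, h6⟩ := h4
        rw [ih i hi] at h6
        by_contra hc
        have h7 : x n = true := by
          cases hxn : x n
          · rw [hxn] at hc; exact absurd rfl hc
          · rfl
        rw [hx n i h5 h7] at h6
        exact absurd h6 (by simp)
      · rw [if_neg h4]

open Classical in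
theorem up_congr {x y : ℕ → Bool} (n : ℕ) (h : ∀ i ≤ n, x i = y i) : up π x n = up π y n := by
  induction n using Nat.strong_induction_on with
  | _ n ih =>
    rw [up_eq, up_eq π y]
    have h1 : ∀ i < n, up π x i = up π y i := fun i hi => ih i hi fun k hk => h k (by omega)
    have e1 : (∃ i, ∃ _ : i < n, π i ≤ π n ∧ up π x i = true) ↔
        ∃ i, ∃ _ : i < n, π i ≤ π n ∧ up π y i = true :=
      exists_congr fun i => exists_congr fun hi => by rw [h1 i hi]
    have e2 : (∃ i, ∃ _ : i < n, π n ≤ π i ∧ up π x i = false) ↔
        ∃ i, ∃ _ : i < n, π n ≤ π i ∧ up π y i = false :=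
      exists_congr fun i => exists_congr fun hi => by rw [h1 i hi]
    exact if_congr e1 rfl (if_congr e2 rfl (h n le_rfl))

/-- the sets of natural numbers -/
def SA (n : ℕ) : Set ℕ := {m | up π (fun i => m.testBit i) n = true}

theorem sa_mono {i j : ℕ} (h : π i ≤ π j) : SA π i ⊆ SA π j := fun _ hm =>
  up_mono π _ (i + j + 1) i (by omega) j (by omega) h hm

theorem exists_sa (i j : ℕ) : ∃ m, m ∈ SA π i ∧ (m ∈ SA π j → π i ≤ π j) := by
  classical
  obtain ⟨m, hm⟩ := exists_bits (fun k => decide (π i ≤ π k)) (i + j + 1)
  have h1 : ∀ k, k < i + j + 1 → up π (fun i => m.testBit i) k = decide (π i ≤ π k) := by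
    intro k hk
    rw [up_congr π (y := fun k => decide (π i ≤ π k)) k fun l hl => hm l (by omega)]
    refine up_self π (fun a b hab ha => ?_) k
    simp only [decide_eq_true_eq] at ha ⊢
    exact ha.trans hab
  refine ⟨m, ?_, fun h => ?_⟩
  · show up π (fun i => m.testBit i) i = true
    rw [h1 i (by omega)]
    simp
  · have h2 : up π (fun i => m.testBit i) j = true := h
    rw [h1 j (by omega)] at h2
    simpa using h2

theorem delta_sa (n : ℕ) : Delta11 fun m => m ∈ SA π n := by
  have h3 : ∀ L : List ℕ, Delta11 fun v : ℕ => v ∈ L := by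
    intro L
    induction L with
    | nil => exact (Delta11.of_computable (p_lt (c_const 1) (c_const 0))).of_iff fun x => by simp
    | cons a L ih =>
      exact ((Delta11.of_computable (p_eq c_id (c_const a))).or ih).of_iff fun x => by simp
  classical
  have h4 : Computable fun m : ℕ => m % 2 ^ (n + 1) :=
    (Primrec.nat_mod.to_comp).comp c_id (c_const (2 ^ (n + 1)))
  refine ((h3 (((Finset.range (2 ^ (n + 1))).filter fun m => m ∈ SA π n).toList)).comp h4).of_iff
    fun m => ?_
  rw [Finset.mem_toList, Finset.mem_filter, Finset.mem_range]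
  have h5 : up π (fun i => (m % 2 ^ (n + 1)).testBit i) n = up π (fun i => m.testBit i) n := by
    refine up_congr π n fun i hi => ?_
    rw [Nat.testBit_mod_two_pow]
    simp
    omega
  constructor
  · intro h
    refine ⟨Nat.mod_lt _ (by positivity), ?_⟩
    show up π (fun i => (m % 2 ^ (n + 1)).testBit i) n = true
    rw [h5]
    exact h
  · rintro ⟨_, h⟩
    have h' : up π (fun i => (m % 2 ^ (n + 1)).testBit i) n = true := h
    rw [h5] at h'
    exact h'

end

/-- every countable preorder embeds into the hyperarithmetic sets of natural numbers -/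
theorem exists_embedding (P : Type) [Preorder P] [Countable P] : ∃ S : P → Set ℕ,
    (∀ p, (Delta11 fun m => m ∈ S p) ∧ (S p).Nonempty) ∧ ∀ p q, S p ⊆ S q ↔ p ≤ q := by
  rcases isEmpty_or_nonempty P with hP | hP
  · exact ⟨fun _ => ∅, fun p => (hP.false p).elim, fun p => (hP.false p).elim⟩
  · obtain ⟨π, hπ⟩ := exists_surjective_nat P
    choose ν hν using hπ
    refine ⟨fun p => SA π (ν p), fun p => ⟨delta_sa π _, ?_⟩, fun p q => ⟨fun h => ?_, fun h => ?_⟩⟩
    · obtain ⟨m, hm, _⟩ := exists_sa π (ν p) 0
      exact ⟨m, hm⟩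
    · obtain ⟨m, hm, h1⟩ := exists_sa π (ν p) (ν q)
      have := h1 (h hm)
      rwa [hν, hν] at this
    · refine sa_mono π ?_
      rw [hν, hν]
      exact h

end Pool.Agent.KS6_49.HY
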